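import Mathlib

set_option autoImplicit false
open Topology

namespace Pool.Agent.Results.MP_5446c4_an.NoInjective

universe u v

/-- `E` is a (complex) Fréchet space: a complete, metrizable (i.e. Hausdorff with countably generated
uniformity), locally convex topological vector space. -/
structure IsFrechet (E : Type u) [AddCommGroup E] [Module ℂ E] [UniformSpace E] : Prop where
  uniformAddGroup : IsUniformAddGroup E
  complete : CompleteSpace E
  t2 : T2Space E
  countable : (uniformity E).IsCountablyGenerated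
  smul : ContinuousSMul ℂ E
  convex : LocallyConvexSpace ℝ E

/-- The bilinear multiplication `m` makes the Fréchet space `A` a Fréchet algebra: it is associative
and jointly continuous. -/
def IsFrechetAlgebra {A : Type v} [AddCommGroup A] [Module ℂ A] [UniformSpace A]
    (m : A →ₗ[ℂ] A →ₗ[ℂ] A) : Prop :=
  IsFrechet A ∧ (∀ a b c : A, m (m a b) c = m a (m b c)) ∧ Continuous (fun p : A × A => m p.1 p.2)

/-- The bilinear action `act` makes the Fréchet space `X` a left Fréchet module over `(A, m)`: it is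
associative and jointly continuous. -/
def IsFrechetModule {A : Type v} [AddCommGroup A] [Module ℂ A] [UniformSpace A]
    (m : A →ₗ[ℂ] A →ₗ[ℂ] A) {X : Type u} [AddCommGroup X] [Module ℂ X] [UniformSpace X]
    (act : A →ₗ[ℂ] X →ₗ[ℂ] X) : Prop :=
  IsFrechet X ∧ (∀ (a b : A) (x : X), act (m a b) x = act a (act b x)) ∧
    Continuous (fun p : A × X => act p.1 p.2)

/-- The Fréchet module `(X, act)` is injective: every morphism `φ : X → Y` of Fréchet modules which
has a continuous linear left inverse has a continuous `A`-linear left inverse. -/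
def IsInjectiveModule {A : Type v} [AddCommGroup A] [Module ℂ A] [UniformSpace A]
    (m : A →ₗ[ℂ] A →ₗ[ℂ] A) {X : Type u} [AddCommGroup X] [Module ℂ X] [UniformSpace X]
    (act : A →ₗ[ℂ] X →ₗ[ℂ] X) : Prop :=
  ∀ (Y : Type u) [AddCommGroup Y] [Module ℂ Y] [UniformSpace Y] (actY : A →ₗ[ℂ] Y →ₗ[ℂ] Y),
    IsFrechetModule m actY → ∀ φ : X →L[ℂ] Y, (∀ (a : A) (x : X), φ (act a x) = actY a (φ x)) →
      (∃ ρ : Y →L[ℂ] X, ∀ x, ρ (φ x) = x) →
      ∃ ψ : Y →L[ℂ] X, (∀ (a : A) (y : Y), ψ (actY a y) = act a (ψ y)) ∧ ∀ x, ψ (φ x) = x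

/-- The unital Fréchet module `(X, act)` over the Fréchet algebra `(A, m)` with unit `one` is injective
among unital Fréchet modules: every morphism `φ : X → Y` of unital Fréchet modules which has a
continuous linear left inverse has a continuous `A`-linear left inverse. -/
def IsInjectiveUnitalModule {A : Type v} [AddCommGroup A] [Module ℂ A] [UniformSpace A]
    (m : A →ₗ[ℂ] A →ₗ[ℂ] A) (one : A) {X : Type u} [AddCommGroup X] [Module ℂ X] [UniformSpace X]
    (act : A →ₗ[ℂ] X →ₗ[ℂ] X) : Prop :=
  ∀ (Y : Type u) [AddCommGroup Y] [Module ℂ Y] [UniformSpace Y] (actY : A →ₗ[ℂ] Y →ₗ[ℂ] Y),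
    IsFrechetModule m actY → (∀ y, actY one y = y) →
      ∀ φ : X →L[ℂ] Y, (∀ (a : A) (x : X), φ (act a x) = actY a (φ x)) →
      (∃ ρ : Y →L[ℂ] X, ∀ x, ρ (φ x) = x) →
      ∃ ψ : Y →L[ℂ] X, (∀ (a : A) (y : Y), ψ (actY a y) = act a (ψ y)) ∧ ∀ x, ψ (φ x) = x

/-- The multiplication of the algebra `t ℂ[[t]]` of formal power series without constant term: the
sequence `(a_k)` stands for `∑ a_k t^{k+1}`. -/
noncomputable def mulT : (ℕ → ℂ) →ₗ[ℂ] (ℕ → ℂ) →ₗ[ℂ] (ℕ → ℂ) :=
  LinearMap.mk₂ ℂ
    (fun a b k => PowerSeries.coeff k (PowerSeries.X * PowerSeries.mk a * PowerSeries.mk b))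
    (by
      intro a a' b; ext k
      have : PowerSeries.mk (a + a') = PowerSeries.mk a + PowerSeries.mk a' := by ext; simp
      simp only [Pi.add_apply, this]
      rw [← map_add]; congr 1; ring)
    (by
      intro c a b; ext k
      have : PowerSeries.mk (c • a) = c • PowerSeries.mk a := by ext; simp
      simp only [Pi.smul_apply, this, mul_smul_comm, smul_mul_assoc, map_smul])
    (by
      intro a b b'; ext k
      have : PowerSeries.mk (b + b') = PowerSeries.mk b + PowerSeries.mk b' := by ext; simp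
      simp only [Pi.add_apply, this]
      rw [← map_add]; congr 1; ring)
    (by
      intro c a b; ext k
      have : PowerSeries.mk (c • b) = c • PowerSeries.mk b := by ext; simp
      simp only [Pi.smul_apply, this, mul_smul_comm, map_smul])

lemma mk_mulT (a b : ℕ → ℂ) :
    PowerSeries.mk (mulT a b) = PowerSeries.X * PowerSeries.mk a * PowerSeries.mk b := by
  ext k
  rw [PowerSeries.coeff_mk]
  rfl

lemma mk_inj {a b : ℕ → ℂ} (h : PowerSeries.mk a = PowerSeries.mk b) : a = b := by
  ext k
  have := congrArg (PowerSeries.coeff k) h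
  simpa using this

lemma frechet_seq : IsFrechet (ℕ → ℂ) where
  uniformAddGroup := inferInstance
  complete := inferInstance
  t2 := inferInstance
  countable := inferInstance
  smul := inferInstance
  convex := inferInstance

lemma mulT_assoc (a b c : ℕ → ℂ) : mulT (mulT a b) c = mulT a (mulT b c) := by
  apply mk_inj
  rw [mk_mulT, mk_mulT, mk_mulT, mk_mulT]
  ring

lemma mulT_cont : Continuous (fun p : (ℕ → ℂ) × (ℕ → ℂ) => mulT p.1 p.2) := by
  apply continuous_pi
  intro k
  have : (fun p : (ℕ → ℂ) × (ℕ → ℂ) => mulT p.1 p.2 k) = fun p =>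
      ∑ q ∈ Finset.HasAntidiagonal.antidiagonal k, (PowerSeries.coeff q.1 (PowerSeries.X * PowerSeries.mk p.1)) * p.2 q.2 := by
    ext p
    change PowerSeries.coeff k (PowerSeries.X * PowerSeries.mk p.1 * PowerSeries.mk p.2) = _
    rw [PowerSeries.coeff_mul]
    simp
  rw [this]
  apply continuous_finsetSum
  intro q _
  apply Continuous.mul
  · rcases q with ⟨i, j⟩
    rcases i with _ | i
    · simp only [PowerSeries.coeff_zero_X_mul]; exact continuous_const
    · simp only [PowerSeries.coeff_succ_X_mul, PowerSeries.coeff_mk]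
      exact (continuous_apply i).comp continuous_fst
  · exact (continuous_apply _).comp continuous_snd

/-- the monomial `t^{n+1}` -/
def e (n : ℕ) : ℕ → ℂ := Pi.single n 1

lemma mk_e (n : ℕ) : PowerSeries.mk (e n) = PowerSeries.X ^ n := by
  ext k
  rw [PowerSeries.coeff_mk, PowerSeries.coeff_X_pow, e, Pi.single_apply]

lemma mulT_e (n : ℕ) : mulT (e 0) (e n) = e (n + 1) := by
  apply mk_inj
  rw [mk_mulT, mk_e, mk_e, mk_e]
  ring

/-- the shift `(a_k) ↦ (a_{k+1})` -/
def sh : (ℕ → ℂ) →ₗ[ℂ] (ℕ → ℂ) where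
  toFun a k := a (k + 1)
  map_add' _ _ := rfl
  map_smul' _ _ := rfl

lemma sh_cont : Continuous sh := continuous_pi fun k => continuous_apply (k + 1)

lemma mk_eq (b : ℕ → ℂ) : PowerSeries.mk b = PowerSeries.C (b 0) + PowerSeries.X * PowerSeries.mk (sh b) := by
  ext k
  rcases k with _ | k
  · simp
  · rw [map_add, PowerSeries.coeff_succ_X_mul, PowerSeries.coeff_mk, PowerSeries.coeff_mk,
      PowerSeries.coeff_C, if_neg (Nat.succ_ne_zero k), zero_add]
    rfl

lemma mulT_zero (a b : ℕ → ℂ) : mulT a b 0 = 0 := by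
  change PowerSeries.coeff 0 (PowerSeries.X * PowerSeries.mk a * PowerSeries.mk b) = 0
  rw [mul_assoc, PowerSeries.coeff_zero_X_mul]

lemma sh_mulT (a b : ℕ → ℂ) : sh (mulT a b) = b 0 • a + mulT a (sh b) := by
  apply mk_inj
  have h1 : PowerSeries.mk (mulT a b) = PowerSeries.X * PowerSeries.mk (sh (mulT a b)) := by
    rw [mk_eq (mulT a b), mulT_zero]; simp
  have h2 : PowerSeries.mk (b 0 • a + mulT a (sh b)) =
      PowerSeries.C (b 0) * PowerSeries.mk a + PowerSeries.mk (mulT a (sh b)) := by
    ext k; simp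
  rw [h2, mk_mulT]
  rw [mk_mulT, mk_eq b] at h1
  have hX : (PowerSeries.X : PowerSeries ℂ) ≠ 0 := PowerSeries.X_ne_zero
  apply mul_left_cancel₀ hX
  rw [← h1]
  ring

/-- the extension module `X × ℂ` determined by `x₀` -/
noncomputable def actY {X : Type u} [AddCommGroup X] [Module ℂ X]
    (act : (ℕ → ℂ) →ₗ[ℂ] X →ₗ[ℂ] X) (x₀ : X) : (ℕ → ℂ) →ₗ[ℂ] (X × ℂ) →ₗ[ℂ] (X × ℂ) :=
  LinearMap.mk₂ ℂ (fun a y => (act a y.1 + y.2 • (a 0 • x₀ + act (sh a) x₀), 0))
    (by
      intro a a' y
      simp only [map_add, LinearMap.add_apply, Pi.add_apply, Prod.mk_add_mk, add_zero]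
      congr 1
      module)
    (by
      intro c a y
      simp only [map_smul, LinearMap.smul_apply, Pi.smul_apply, Prod.smul_mk, smul_eq_mul, mul_zero]
      congr 1
      module)
    (by
      intro a y y'
      simp only [Prod.fst_add, Prod.snd_add, map_add, Prod.mk_add_mk, add_zero]
      congr 1
      module)
    (by
      intro c a y
      simp only [Prod.smul_fst, Prod.smul_snd, map_smul, Prod.smul_mk, smul_eq_mul, mul_zero]
      congr 1
      module)

lemma actY_apply {X : Type u} [AddCommGroup X] [Module ℂ X]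
    (act : (ℕ → ℂ) →ₗ[ℂ] X →ₗ[ℂ] X) (x₀ : X) (a : ℕ → ℂ) (y : X × ℂ) :
    actY act x₀ a y = (act a y.1 + y.2 • (a 0 • x₀ + act (sh a) x₀), 0) := rfl

/-- The multiplication of the unital algebra `ℂ[[t]]` of formal power series: the sequence `(a_k)`
stands for `∑ a_k t^k`. -/
noncomputable def mulS : (ℕ → ℂ) →ₗ[ℂ] (ℕ → ℂ) →ₗ[ℂ] (ℕ → ℂ) :=
  LinearMap.mk₂ ℂ
    (fun a b k => PowerSeries.coeff k (PowerSeries.mk a * PowerSeries.mk b))
    (by
      intro a a' b; ext k
      have : PowerSeries.mk (a + a') = PowerSeries.mk a + PowerSeries.mk a' := by ext; simp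
      simp only [Pi.add_apply, this]
      rw [← map_add]; congr 1; ring)
    (by
      intro c a b; ext k
      have : PowerSeries.mk (c • a) = c • PowerSeries.mk a := by ext; simp
      simp only [Pi.smul_apply, this, smul_mul_assoc, map_smul])
    (by
      intro a b b'; ext k
      have : PowerSeries.mk (b + b') = PowerSeries.mk b + PowerSeries.mk b' := by ext; simp
      simp only [Pi.add_apply, this]
      rw [← map_add]; congr 1; ring)
    (by
      intro c a b; ext k
      have : PowerSeries.mk (c • b) = c • PowerSeries.mk b := by ext; simp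
      simp only [Pi.smul_apply, this, mul_smul_comm, map_smul])

lemma mk_mulS (a b : ℕ → ℂ) :
    PowerSeries.mk (mulS a b) = PowerSeries.mk a * PowerSeries.mk b := by
  ext k
  rw [PowerSeries.coeff_mk]
  rfl

lemma mulS_assoc (a b c : ℕ → ℂ) : mulS (mulS a b) c = mulS a (mulS b c) := by
  apply mk_inj
  rw [mk_mulS, mk_mulS, mk_mulS, mk_mulS]
  ring

lemma mulS_cont : Continuous (fun p : (ℕ → ℂ) × (ℕ → ℂ) => mulS p.1 p.2) := by
  apply continuous_pi
  intro k
  have : (fun p : (ℕ → ℂ) × (ℕ → ℂ) => mulS p.1 p.2 k) = fun p =>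
      ∑ q ∈ Finset.HasAntidiagonal.antidiagonal k, (p.1 q.1) * p.2 q.2 := by
    ext p
    change PowerSeries.coeff k (PowerSeries.mk p.1 * PowerSeries.mk p.2) = _
    rw [PowerSeries.coeff_mul]
    simp
  rw [this]
  apply continuous_finsetSum
  intro q _
  exact ((continuous_apply q.1).comp continuous_fst).mul ((continuous_apply _).comp continuous_snd)

lemma mulS_e (n : ℕ) : mulS (e 1) (e n) = e (n + 1) := by
  apply mk_inj
  rw [mk_mulS, mk_e, mk_e, mk_e]
  ring

lemma mulS_one (a : ℕ → ℂ) : mulS (e 0) a = a ∧ mulS a (e 0) = a := by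
  constructor <;>
  · apply mk_inj
    rw [mk_mulS, mk_e]
    simp

lemma mulS_zero (a b : ℕ → ℂ) : mulS a b 0 = a 0 * b 0 := by
  change PowerSeries.coeff 0 (PowerSeries.mk a * PowerSeries.mk b) = _
  simp

lemma sh_mulS (a b : ℕ → ℂ) : sh (mulS a b) = b 0 • sh a + mulS a (sh b) := by
  apply mk_inj
  have h1 := mk_eq (mulS a b)
  rw [mulS_zero, mk_mulS] at h1
  have h2 : PowerSeries.mk (b 0 • sh a + mulS a (sh b)) =
      PowerSeries.C (b 0) * PowerSeries.mk (sh a) + PowerSeries.mk (mulS a (sh b)) := by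
    ext k; simp
  rw [h2, mk_mulS]
  have hX : (PowerSeries.X : PowerSeries ℂ) ≠ 0 := PowerSeries.X_ne_zero
  apply mul_left_cancel₀ hX
  have h3 : PowerSeries.X * PowerSeries.mk (sh (mulS a b)) =
      PowerSeries.mk a * PowerSeries.mk b - PowerSeries.C (a 0 * b 0) := by
    rw [h1]; ring
  rw [h3, map_mul]
  have h4 := mk_eq a
  have h5 := mk_eq b
  calc PowerSeries.mk a * PowerSeries.mk b - PowerSeries.C (a 0) * PowerSeries.C (b 0)
      = PowerSeries.mk a * (PowerSeries.C (b 0) + PowerSeries.X * PowerSeries.mk (sh b))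
        - PowerSeries.C (a 0) * PowerSeries.C (b 0) := by rw [← h5]
    _ = PowerSeries.C (b 0) * (PowerSeries.mk a - PowerSeries.C (a 0)) +
        PowerSeries.X * (PowerSeries.mk a * PowerSeries.mk (sh b)) := by ring
    _ = PowerSeries.C (b 0) * (PowerSeries.X * PowerSeries.mk (sh a)) +
        PowerSeries.X * (PowerSeries.mk a * PowerSeries.mk (sh b)) := by
          congr 2
          rw [h4]; ring
    _ = _ := by ring

/-- the unital extension module `X × ℂ` determined by `x₀` -/
noncomputable def actU {X : Type u} [AddCommGroup X] [Module ℂ X]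
    (act : (ℕ → ℂ) →ₗ[ℂ] X →ₗ[ℂ] X) (x₀ : X) : (ℕ → ℂ) →ₗ[ℂ] (X × ℂ) →ₗ[ℂ] (X × ℂ) :=
  LinearMap.mk₂ ℂ (fun a y => (act a y.1 + y.2 • act (sh a) x₀, a 0 * y.2))
    (by
      intro a a' y
      simp only [map_add, LinearMap.add_apply, Pi.add_apply, Prod.mk_add_mk]
      congr 1
      · module
      · ring)
    (by
      intro c a y
      simp only [map_smul, LinearMap.smul_apply, Pi.smul_apply, Prod.smul_mk, smul_eq_mul]
      congr 1
      · module
      · ring)
    (by
      intro a y y'
      simp only [Prod.fst_add, Prod.snd_add, map_add, Prod.mk_add_mk]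
      congr 1
      · module
      · ring)
    (by
      intro c a y
      simp only [Prod.smul_fst, Prod.smul_snd, map_smul, Prod.smul_mk, smul_eq_mul]
      congr 1
      · module
      · ring)

lemma actU_apply {X : Type u} [AddCommGroup X] [Module ℂ X]
    (act : (ℕ → ℂ) →ₗ[ℂ] X →ₗ[ℂ] X) (x₀ : X) (a : ℕ → ℂ) (y : X × ℂ) :
    actU act x₀ a y = (act a y.1 + y.2 • act (sh a) x₀, a 0 * y.2) := rfl

/-- joint continuity is incompatible with surjectivity of all the monomials -/
lemma zero_of_surj {X : Type u} [AddCommGroup X] [Module ℂ X] [UniformSpace X]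
    (act : (ℕ → ℂ) →ₗ[ℂ] X →ₗ[ℂ] X) (hFr : IsFrechet X)
    (hcont : Continuous (fun p : (ℕ → ℂ) × X => act p.1 p.2))
    (hsurj2 : ∀ (n : ℕ) (x₀ : X), ∃ y : X, act (e n) y = x₀) (x : X) : x = 0 := by
  have i1 := hFr.uniformAddGroup
  have i3 := hFr.t2
  have i5 := hFr.smul
  by_contra hx
  have hW : {y : X | y ≠ x} ∈ 𝓝 (0 : X) := isOpen_ne.mem_nhds (Ne.symm hx)
  have h0 : Filter.Tendsto (fun p : (ℕ → ℂ) × X => act p.1 p.2) (𝓝 (0, 0)) (𝓝 0) := by
    have := hcont.tendsto (0, 0)
    simpa using this
  have h1 := h0 hW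
  rw [nhds_prod_eq, Filter.mem_map, Filter.mem_prod_iff] at h1
  obtain ⟨N, hN, M, hM, hNM⟩ := h1
  rw [nhds_pi, Filter.mem_pi] at hN
  obtain ⟨I, hI, t, ht, htN⟩ := hN
  obtain ⟨n, hn⟩ : ∃ n, n ∉ I := hI.infinite_compl.nonempty
  obtain ⟨y, hy⟩ := hsurj2 n x
  have hlim : Filter.Tendsto (fun s : ℂ => s • y) (𝓝 0) (𝓝 (0 : X)) := by
    have : Continuous (fun s : ℂ => s • y) := continuous_id.smul continuous_const
    simpa using this.tendsto 0
  have h2 : ∀ᶠ s : ℂ in 𝓝[≠] 0, s • y ∈ M := (hlim.eventually hM).filter_mono nhdsWithin_le_nhds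
  obtain ⟨s, hs, hs0⟩ := (h2.and self_mem_nhdsWithin).exists
  have h3 : (s⁻¹ • e n, s • y) ∈ N ×ˢ M := by
    refine ⟨htN ?_, hs⟩
    intro i hi
    have hin : i ≠ n := fun h => hn (h ▸ hi)
    have : (s⁻¹ • e n) i = (0 : ℕ → ℂ) i := by
      simp [e, hin]
    change (s⁻¹ • e n) i ∈ t i
    rw [this]
    exact mem_of_mem_nhds (ht i)
  have h4 := hNM h3
  apply h4
  change act (s⁻¹ • e n) (s • y) = x
  rw [map_smul (act (s⁻¹ • e n)), map_smul act, LinearMap.smul_apply, smul_smul,
    mul_inv_cancel₀ hs0, one_smul, hy]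

/-- Two forms of the answer.

(1) There is a Fréchet algebra over which no nonzero Fréchet module is injective: the algebra
`t ℂ[[t]]` of formal power series without constant term (with the topology of convergence of
coefficients).

(2) There is a unital Fréchet algebra over which no nonzero unital Fréchet module is injective among
unital Fréchet modules: the algebra `ℂ[[t]]` of formal power series. -/
theorem result :
    (∃ (A : Type) (_ : AddCommGroup A) (_ : Module ℂ A) (_ : UniformSpace A)
      (m : A →ₗ[ℂ] A →ₗ[ℂ] A), IsFrechetAlgebra m ∧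
      ∀ (X : Type u) [AddCommGroup X] [Module ℂ X] [UniformSpace X] (act : A →ₗ[ℂ] X →ₗ[ℂ] X),
        IsFrechetModule m act → IsInjectiveModule m act → ∀ x : X, x = 0) ∧
    (∃ (A : Type) (_ : AddCommGroup A) (_ : Module ℂ A) (_ : UniformSpace A)
      (m : A →ₗ[ℂ] A →ₗ[ℂ] A) (one : A), IsFrechetAlgebra m ∧
      (∀ a : A, m one a = a ∧ m a one = a) ∧
      ∀ (X : Type u) [AddCommGroup X] [Module ℂ X] [UniformSpace X] (act : A →ₗ[ℂ] X →ₗ[ℂ] X),
        IsFrechetModule m act → (∀ x : X, act one x = x) →
          IsInjectiveUnitalModule m one act → ∀ x : X, x = 0) := by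
  constructor
  · refine ⟨ℕ → ℂ, inferInstance, inferInstance, inferInstance, mulT,
      ⟨frechet_seq, mulT_assoc, mulT_cont⟩, ?_⟩
    intro X _ _ _ act hX hinj
    obtain ⟨hFr, hassoc, hcont⟩ := hX
    have i1 := hFr.uniformAddGroup
    have i2 := hFr.complete
    have i3 := hFr.t2
    have i4 := hFr.countable
    have i5 := hFr.smul
    have i6 := hFr.convex
    -- surjectivity of the action of `t`
    have hsurj : ∀ x₀ : X, ∃ y : X, act (e 0) y = x₀ := by
      intro x₀
      have hY : IsFrechetModule mulT (actY act x₀) := by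
        refine ⟨⟨inferInstance, inferInstance, inferInstance, inferInstance, inferInstance, ?_⟩, ?_, ?_⟩
        · exact (inferInstance : LocallyConvexSpace ℝ (X × ℂ))
        · intro a b y
          rw [actY_apply, actY_apply, actY_apply]
          simp only [zero_smul, add_zero]
          congr 1
          rw [hassoc, mulT_zero, sh_mulT, map_add, LinearMap.add_apply, map_smul,
            LinearMap.smul_apply, hassoc, map_add, map_smul, map_add, map_smul]
          module
        · have h1 : Continuous (fun p : (ℕ → ℂ) × (X × ℂ) => act p.1 p.2.1) :=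
            hcont.comp (continuous_fst.prodMk (continuous_fst.comp continuous_snd))
          have h2 : Continuous (fun p : (ℕ → ℂ) × (X × ℂ) => act (sh p.1) x₀) :=
            hcont.comp ((sh_cont.comp continuous_fst).prodMk continuous_const)
          have h3 : Continuous (fun p : (ℕ → ℂ) × (X × ℂ) => p.1 0 • x₀) :=
            ((continuous_apply 0).comp continuous_fst).smul continuous_const
          exact (h1.add ((continuous_snd.comp continuous_snd).smul (h3.add h2))).prodMk
            continuous_const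
      obtain ⟨ψ, hψ1, hψ2⟩ := hinj (X × ℂ) (actY act x₀) hY (ContinuousLinearMap.inl ℂ X ℂ)
        (by
          intro a x
          rw [actY_apply]
          simp)
        ⟨ContinuousLinearMap.fst ℂ X ℂ, fun x => rfl⟩
      refine ⟨ψ (0, 1), ?_⟩
      rw [← hψ1, actY_apply]
      have h4 : sh (e 0) = 0 := by
        ext k
        simp [sh, e]
      have h5 : (e 0) 0 = 1 := by simp [e]
      simp only [map_zero, zero_add, one_smul, h4, h5, LinearMap.zero_apply, add_zero]
      exact hψ2 x₀
    have hsurj2 : ∀ (n : ℕ) (x₀ : X), ∃ y : X, act (e n) y = x₀ := by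
      intro n
      induction n with
      | zero => exact hsurj
      | succ n ih =>
        intro x₀
        obtain ⟨y, hy⟩ := hsurj x₀
        obtain ⟨z, hz⟩ := ih y
        refine ⟨z, ?_⟩
        rw [← mulT_e, hassoc, hz, hy]
    exact zero_of_surj act hFr hcont hsurj2
  · refine ⟨ℕ → ℂ, inferInstance, inferInstance, inferInstance, mulS, e 0,
      ⟨frechet_seq, mulS_assoc, mulS_cont⟩, mulS_one, ?_⟩
    intro X _ _ _ act hX hone hinj
    obtain ⟨hFr, hassoc, hcont⟩ := hX
    have i1 := hFr.uniformAddGroup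
    have i2 := hFr.complete
    have i3 := hFr.t2
    have i4 := hFr.countable
    have i5 := hFr.smul
    have i6 := hFr.convex
    -- surjectivity of the action of `t`
    have hsurj : ∀ x₀ : X, ∃ y : X, act (e 1) y = x₀ := by
      intro x₀
      have hY : IsFrechetModule mulS (actU act x₀) := by
        refine ⟨⟨inferInstance, inferInstance, inferInstance, inferInstance, inferInstance, ?_⟩, ?_, ?_⟩
        · exact (inferInstance : LocallyConvexSpace ℝ (X × ℂ))
        · intro a b y
          rw [actU_apply, actU_apply, actU_apply]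
          congr 1
          · rw [hassoc, sh_mulS, map_add, LinearMap.add_apply, map_smul,
              LinearMap.smul_apply, hassoc, map_add, map_smul]
            module
          · rw [mulS_zero]; ring
        · have h1 : Continuous (fun p : (ℕ → ℂ) × (X × ℂ) => act p.1 p.2.1) :=
            hcont.comp (continuous_fst.prodMk (continuous_fst.comp continuous_snd))
          have h2 : Continuous (fun p : (ℕ → ℂ) × (X × ℂ) => act (sh p.1) x₀) :=
            hcont.comp ((sh_cont.comp continuous_fst).prodMk continuous_const)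
          have h3 : Continuous (fun p : (ℕ → ℂ) × (X × ℂ) => p.1 0 * p.2.2) :=
            ((continuous_apply 0).comp continuous_fst).mul (continuous_snd.comp continuous_snd)
          exact (h1.add ((continuous_snd.comp continuous_snd).smul h2)).prodMk h3
      have hYone : ∀ y : X × ℂ, actU act x₀ (e 0) y = y := by
        intro y
        rw [actU_apply]
        have h4 : sh (e 0) = 0 := by
          ext k
          simp [sh, e]
        have h5 : (e 0) 0 = 1 := by simp [e]
        rw [hone, h4, h5]
        simp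
      obtain ⟨ψ, hψ1, hψ2⟩ := hinj (X × ℂ) (actU act x₀) hY hYone (ContinuousLinearMap.inl ℂ X ℂ)
        (by
          intro a x
          rw [actU_apply]
          simp)
        ⟨ContinuousLinearMap.fst ℂ X ℂ, fun x => rfl⟩
      refine ⟨ψ (0, 1), ?_⟩
      rw [← hψ1, actU_apply]
      have h4 : sh (e 1) = e 0 := by
        ext k
        simp [sh, e, Pi.single_apply]
      have h5 : (e 1) 0 = 0 := by simp [e]
      simp only [map_zero, zero_add, one_smul, h4, h5, zero_mul, hone]
      exact hψ2 x₀
    have hsurj2 : ∀ (n : ℕ) (x₀ : X), ∃ y : X, act (e n) y = x₀ := by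
      intro n
      induction n with
      | zero => exact fun x₀ => ⟨x₀, hone x₀⟩
      | succ n ih =>
        intro x₀
        obtain ⟨y, hy⟩ := hsurj x₀
        obtain ⟨z, hz⟩ := ih y
        refine ⟨z, ?_⟩
        rw [← mulS_e, hassoc, hz, hy]
    exact zero_of_surj act hFr hcont hsurj2

end Pool.Agent.Results.MP_5446c4_an.NoInjective
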